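import Pool.Agent.Helper46_Sig3.Final

/-!
# Solutions of `sigma 3 n = sigma 3 (n + 2)` are rare

The number of `n ≤ x` with `sigma 3 n = sigma 3 (n + 2)` is at most `x ^ (1 - c / log log x)` for
some absolute constant `c > 0` and all large `x`.
-/

namespace Pool.Agent.Results.MP_cec416_nt.FewSolutions

open Filter

theorem result : ∃ c : ℝ, 0 < c ∧ ∀ᶠ x : ℕ in atTop,
    (((Finset.range (x + 1)).filter (fun n => 0 < n ∧
        ArithmeticFunction.sigma 3 n = ArithmeticFunction.sigma 3 (n + 2))).card : ℝ)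
      ≤ (x : ℝ) ^ (1 - c / Real.log (Real.log x)) := by
  refine ⟨1 / 1200000, by norm_num, ?_⟩
  have hlogt : Tendsto (fun X : ℕ => Real.log (X : ℝ)) atTop atTop :=
    Real.tendsto_log_atTop.comp tendsto_natCast_atTop_atTop
  have hb : ∀ᶠ x : ℕ in atTop, ((Pool.Agent.Sig3.sols (x + 2)).card : ℝ) ≤
      ((x + 2 : ℕ) : ℝ) * Real.exp (-(1 / 300000 * (Real.log ((x + 2 : ℕ) : ℝ)
        / Real.log (Real.log ((x + 2 : ℕ) : ℝ))))) :=
    (tendsto_add_atTop_nat 2).eventually Pool.Agent.Sig3.sols_bound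
  have e1 := Pool.Agent.Sig3.ev_log_pow 2400000 (by norm_num) 1
  have e2 : ∀ᶠ L : ℝ in atTop, (100 : ℝ) ≤ L := eventually_ge_atTop _
  filter_upwards [hb, hlogt.eventually e1, hlogt.eventually e2, eventually_ge_atTop 2]
    with x hx h1 h2 h3
  set l := Real.log (x : ℝ) with hl
  set L := Real.log ((x + 2 : ℕ) : ℝ) with hL
  have hx0 : (0 : ℝ) < x := by exact_mod_cast (by omega : 0 < x)
  have hx2 : (2 : ℝ) ≤ x := by exact_mod_cast h3
  have hX0 : (0 : ℝ) < ((x + 2 : ℕ) : ℝ) := by exact_mod_cast (by omega : 0 < x + 2)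
  have hxexp : (x : ℝ) = Real.exp l := by rw [hl, Real.exp_log hx0]
  have hlL : l ≤ L := by
    rw [hl, hL]
    apply Real.log_le_log hx0
    push_cast; linarith
  have hLl : L ≤ l + Real.log 2 := by
    rw [hl, hL, ← Real.log_mul hx0.ne' (by norm_num)]
    apply Real.log_le_log hX0
    push_cast; linarith
  have hlog2 : Real.log 2 < 1 := by linarith [Real.log_two_lt_d9]
  have hl0 : 0 < l := by linarith
  have hlogl1 : 1 ≤ Real.log l := by
    rw [Real.le_log_iff_exp_le hl0]
    linarith [Real.exp_one_lt_d9]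
  have hlogl0 : 0 < Real.log l := by linarith
  have hlogL1 : 1 ≤ Real.log L := hlogl1.trans (Real.log_le_log hl0 hlL)
  have hlogL2 : Real.log L ≤ 2 * Real.log l := by
    have h4 : Real.log L ≤ Real.log (2 * l) :=
      Real.log_le_log (by linarith) (by linarith)
    rw [Real.log_mul (by norm_num) hl0.ne'] at h4
    linarith
  have hfrac : l / (2 * Real.log l) ≤ L / Real.log L := by
    rw [div_le_div_iff₀ (by positivity) (by linarith)]
    have h5 : 0 ≤ Real.log L := by linarith
    calc l * Real.log L ≤ L * Real.log L := mul_le_mul_of_nonneg_right hlL h5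
      _ ≤ L * (2 * Real.log l) := mul_le_mul_of_nonneg_left hlogL2 (by linarith)
  have hone : 1 ≤ 1 / 1200000 * (l / Real.log l) := by
    rw [← mul_div_assoc, le_div_iff₀ hlogl0]
    rw [pow_one] at h1
    linarith
  have hset : (Finset.range (x + 1)).filter (fun n => 0 < n ∧
      ArithmeticFunction.sigma 3 n = ArithmeticFunction.sigma 3 (n + 2))
      = Pool.Agent.Sig3.sols (x + 2) := by
    ext n
    rw [Pool.Agent.Sig3.mem_sols, Finset.mem_filter, Finset.mem_range]
    constructor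
    · rintro ⟨h6, h7, h8⟩
      exact ⟨⟨h7, by omega⟩, h8⟩
    · rintro ⟨⟨h6, h7⟩, h8⟩
      exact ⟨by omega, h6, h8⟩
  rw [hset]
  refine hx.trans ?_
  have hX : ((x + 2 : ℕ) : ℝ) = Real.exp L := by rw [hL, Real.exp_log hX0]
  rw [hX, ← Real.exp_add, Real.rpow_def_of_pos hx0]
  apply Real.exp_le_exp.mpr
  rw [← hl]
  have h9 : l * (1 - 1 / 1200000 / Real.log l) = l - 1 / 1200000 * (l / Real.log l) := by
    field_simp
  rw [h9]
  have h10 : l / (2 * Real.log l) = 1 / 2 * (l / Real.log l) := by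
    field_simp
  rw [h10] at hfrac
  linarith

end Pool.Agent.Results.MP_cec416_nt.FewSolutions
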